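import Mathlib
import Pool.Agent.Y519.AS.Final

/-!
# An almost symplectic structure, on a closed symplectic twelve-manifold, that is not homotopic to a
symplectic form

There is a closed connected smooth 12-manifold `M` which carries a symplectic form (so `M` is
`c`-symplectic) and an almost symplectic structure `τ₀` which is not joined to any symplectic form
of `M` by a path of nondegenerate 2-forms.

The manifold is `Γ \ N`, where `N = ℂ³ × ℂ³` is the complex two-step nilpotent group with
`(x, z) (x', z') = (x + x', z + z' + β(x, x'))`, and `Γ` its lattice of Gaussian-integer points.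
-/

open scoped Manifold ContDiff Topology
open Pool.Agent.Y519.AS

namespace Pool.Agent.Results.MP_1a66bd_gt.HomotopyClassNotSymplectic

theorem result :
    ∃ (E : Type) (_ : NormedAddCommGroup E) (_ : NormedSpace ℝ E),
      Module.finrank ℝ E = 12 ∧
      ∃ (M : Type) (_ : TopologicalSpace M) (_ : ChartedSpace E M),
        IsManifold 𝓘(ℝ, E) ∞ M ∧ CompactSpace M ∧ T2Space M ∧ ConnectedSpace M ∧
        (∃ σ : TwoForm E M, σ.IsSymplectic) ∧
        ∃ τ₀ : TwoForm E M, τ₀.IsAlmostSymplectic ∧
          ∀ τ₁ : TwoForm E M, τ₁.IsSymplectic → ¬ TwoForm.Homotopic τ₀ τ₁ := by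
  refine ⟨E12, inferInstance, inferInstance, ?_, Nil12, inferInstance, inferInstance,
    inferInstance, inferInstance, inferInstance, inferInstance, ⟨tau2, tau2_symplectic⟩,
    tau0, ⟨tau0_smooth, tau0_nondeg⟩, tau0_not_homotopic⟩
  have h : Module.finrank ℝ (C3 × C3) = Module.finrank ℝ C3 + Module.finrank ℝ C3 :=
    Module.finrank_prod
  rw [finrank_C3] at h
  exact h

end Pool.Agent.Results.MP_1a66bd_gt.HomotopyClassNotSymplectic
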